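import Mathlib

set_option autoImplicit false

open Filter Topology MeasureTheory
open scoped ENNReal

namespace Pool.Agent.Results.MP_e40715_an.NeverSupercyclic

/-- Lebesgue measure on `[0, 1]` -/
noncomputable abbrev μ : Measure ℝ := volume.restrict (Set.Icc 0 1)

/-- the translation `x ↦ {x + α}` -/
noncomputable def R (α : ℝ) (x : ℝ) : ℝ := Int.fract (x + α)

instance : IsProbabilityMeasure μ := ⟨by simp [μ]⟩

theorem μ_eq : μ = volume.restrict (Set.Ico 0 1) := (Measure.restrict_congr_set Ico_ae_eq_Icc).symm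

theorem R_fract (α : ℝ) : R α = R (Int.fract α) := by
  funext x
  unfold R
  have : x + α = x + Int.fract α + ⌊α⌋ := by
    rw [add_assoc, Int.fract_add_floor]
  rw [this, Int.fract_add_intCast]

theorem measurable_R (α : ℝ) : Measurable (R α) :=
  measurable_fract.comp (measurable_id.add_const α)

theorem preserving_aux {α : ℝ} (h0 : 0 ≤ α) (h1 : α < 1) : MeasurePreserving (R α) μ μ := by
  refine ⟨measurable_R α, ?_⟩
  ext A hA
  rw [Measure.map_apply (measurable_R α) hA, μ_eq,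
    Measure.restrict_apply (measurable_R α hA), Measure.restrict_apply hA]
  have hset : R α ⁻¹' A ∩ Set.Ico 0 1 =
      ((fun x => x + α) ⁻¹' (A ∩ Set.Ico α 1)) ∪ ((fun x => x + (α - 1)) ⁻¹' (A ∩ Set.Ico 0 α)) := by
    ext x
    simp only [Set.mem_inter_iff, Set.mem_preimage, Set.mem_Ico, Set.mem_union]
    constructor
    · rintro ⟨hx, h2, h3⟩
      by_cases hc : x + α < 1
      · left
        have : R α x = x + α := Int.fract_eq_self.2 ⟨by linarith, hc⟩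
        rw [this] at hx
        exact ⟨hx, by linarith, hc⟩
      · right
        push Not at hc
        have : R α x = x + (α - 1) := by
          unfold R
          rw [Int.fract_eq_iff]
          exact ⟨by linarith, by linarith, 1, by push_cast; ring⟩
        rw [this] at hx
        exact ⟨hx, by linarith, by linarith⟩
    · rintro (⟨hx, h2, h3⟩ | ⟨hx, h2, h3⟩)
      · have : R α x = x + α := Int.fract_eq_self.2 ⟨by linarith, h3⟩
        rw [this]
        exact ⟨hx, by linarith, by linarith⟩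
      · have : R α x = x + (α - 1) := by
          unfold R
          rw [Int.fract_eq_iff]
          exact ⟨by linarith, by linarith, 1, by push_cast; ring⟩
        rw [this]
        exact ⟨hx, by linarith, by linarith⟩
  have hdisj : Disjoint ((fun x => x + α) ⁻¹' (A ∩ Set.Ico α 1))
      ((fun x => x + (α - 1)) ⁻¹' (A ∩ Set.Ico 0 α)) := by
    rw [Set.disjoint_left]
    rintro x ⟨_, h2, h3⟩ ⟨_, h4, h5⟩
    simp only at h2 h3 h4 h5
    linarith
  rw [hset, measure_union hdisj (measurable_id.add_const _ (hA.inter measurableSet_Ico)),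
    measure_preimage_add_right, measure_preimage_add_right]
  have hset2 : A ∩ Set.Ico 0 1 = (A ∩ Set.Ico α 1) ∪ (A ∩ Set.Ico 0 α) := by
    rw [← Set.inter_union_distrib_left]
    congr 1
    rw [Set.union_comm, Set.Ico_union_Ico_eq_Ico h0 h1.le]
  have hdisj2 : Disjoint (A ∩ Set.Ico α 1) (A ∩ Set.Ico 0 α) := by
    rw [Set.disjoint_left]
    rintro x ⟨_, h2, h3⟩ ⟨_, h4, h5⟩
    linarith
  rw [hset2, measure_union hdisj2 (hA.inter measurableSet_Ico)]

theorem preserving (α : ℝ) : MeasurePreserving (R α) μ μ := by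
  rw [R_fract]
  exact preserving_aux (Int.fract_nonneg α) (Int.fract_lt_one α)

variable (p : ℝ≥0∞) [Fact (1 ≤ p)]

/-- the weighted translation operator `f ↦ φ · (f ∘ R α)` on `L^p([0,1])` -/
noncomputable def W (α : ℝ) (φ : Lp ℂ ∞ μ) : Lp ℂ p μ →L[ℂ] Lp ℂ p μ :=
  ((ContinuousLinearMap.mul ℂ ℂ).holderL μ ∞ p p φ).comp
    (Lp.compMeasurePreservingₗᵢ ℂ (R α) (preserving α)).toContinuousLinearMap

/-- `T` is hypercyclic -/
def Hypercyclic {X : Type*} [NormedAddCommGroup X] [NormedSpace ℂ X] (T : X →L[ℂ] X) : Prop :=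
  ∃ x : X, Dense (Set.range fun n : ℕ => (T ^ n) x)

/-- `T` is supercyclic -/
def Supercyclic {X : Type*} [NormedAddCommGroup X] [NormedSpace ℂ X] (T : X →L[ℂ] X) : Prop :=
  ∃ x : X, Dense {y : X | ∃ (c : ℂ) (n : ℕ), y = c • (T ^ n) x}

variable {p}

theorem W_apply (α : ℝ) (φ : Lp ℂ ∞ μ) (f : Lp ℂ p μ) :
    W p α φ f =ᵐ[μ] fun x => φ x * f (Int.fract (x + α)) := by
  have h1 := (ContinuousLinearMap.mul ℂ ℂ).coeFn_holder (r := p) φ
    (Lp.compMeasurePreserving (R α) (preserving α) f)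
  have h2 := Lp.coeFn_compMeasurePreserving f (preserving α)
  have h3 : W p α φ f = (ContinuousLinearMap.mul ℂ ℂ).holder p φ
    (Lp.compMeasurePreserving (R α) (preserving α) f) := rfl
  rw [h3]
  filter_upwards [h1, h2] with x hx1 hx2
  rw [hx1, hx2]
  rfl

/-- along a subsequence, scaled orbit points converge almost everywhere together with their images -/
theorem exists_seq {T : Lp ℂ p μ →L[ℂ] Lp ℂ p μ} {f : Lp ℂ p μ}
    (hf : Dense {y : Lp ℂ p μ | ∃ (c : ℂ) (n : ℕ), y = c • (T ^ n) f}) (g : Lp ℂ p μ) :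
    ∃ (c : ℕ → ℂ) (n : ℕ → ℕ), Tendsto (fun j => c j • (T ^ n j) f) atTop (𝓝 g) ∧
      Tendsto (fun j => c j • (T ^ (n j + 1)) f) atTop (𝓝 (T g)) ∧
      (∀ᵐ x ∂μ, Tendsto (fun j => (c j • (T ^ n j) f : Lp ℂ p μ) x) atTop (𝓝 (g x))) ∧
      (∀ᵐ x ∂μ, Tendsto (fun j => (c j • (T ^ (n j + 1)) f : Lp ℂ p μ) x) atTop (𝓝 (T g x))) := by
  obtain ⟨u, hu, hug⟩ := mem_closure_iff_seq_limit.1 (hf g)
  choose c n hcn using hu
  have hu' : u = fun j => c j • (T ^ n j) f := funext hcn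
  have hTu : Tendsto (fun j => T (u j)) atTop (𝓝 (T g)) := (T.continuous.tendsto g).comp hug
  obtain ⟨s, hs, hs2⟩ := (tendstoInMeasure_of_tendsto_Lp hug).exists_seq_tendsto_ae
  obtain ⟨t, ht, ht2⟩ := (tendstoInMeasure_of_tendsto_Lp
    (hTu.comp hs.tendsto_atTop)).exists_seq_tendsto_ae
  have e : ∀ j, T (u j) = c j • (T ^ (n j + 1)) f := by
    intro j
    rw [hcn j, map_smul, pow_succ']
    rfl
  refine ⟨fun j => c (s (t j)), fun j => n (s (t j)), ?_, ?_, ?_, ?_⟩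
  · have := hug.comp (hs.tendsto_atTop.comp ht.tendsto_atTop)
    rw [hu'] at this
    exact this
  · have := hTu.comp (hs.tendsto_atTop.comp ht.tendsto_atTop)
    refine this.congr fun j => ?_
    exact e _
  · filter_upwards [hs2] with x hx
    have := hx.comp ht.tendsto_atTop
    rw [hu'] at this
    exact this
  · filter_upwards [ht2] with x hx
    refine hx.congr fun j => ?_
    simp only [Function.comp_apply]
    rw [e]

/-- multiplication operators -/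
theorem mult_not_supercyclic {T : Lp ℂ p μ →L[ℂ] Lp ℂ p μ} {φ : ℝ → ℂ}
    (hT : ∀ g : Lp ℂ p μ, T g =ᵐ[μ] fun x => φ x * g x) (f : Lp ℂ p μ)
    (hf : Dense {y : Lp ℂ p μ | ∃ (c : ℂ) (n : ℕ), y = c • (T ^ n) f}) : False := by
  have hpow : ∀ n : ℕ, (T ^ n) f =ᵐ[μ] fun x => φ x ^ n * f x := by
    intro n
    induction n with
    | zero => simp
    | succ n ih =>
      have e : (T ^ (n + 1)) f = T ((T ^ n) f) := by rw [pow_succ']; rfl
      rw [e]
      filter_upwards [hT ((T ^ n) f), ih] with x h1 h2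
      rw [h1, h2, pow_succ]; ring
  have hsm : ∀ (c : ℂ) (n : ℕ), (c • (T ^ n) f : Lp ℂ p μ) =ᵐ[μ] fun x => c * (φ x ^ n * f x) := by
    intro c n
    filter_upwards [Lp.coeFn_smul c ((T ^ n) f), hpow n] with x h1 h2
    rw [h1, Pi.smul_apply, h2, smul_eq_mul]
  -- the test functions
  set G : ℚ × ℚ → Lp ℂ p μ := fun q =>
    indicatorConstLp p (measurableSet_Ioo (a := (q.1 : ℝ)) (b := (q.2 : ℝ))) (measure_ne_top μ _) 1
    with hG
  have hG2 : ∀ q : ℚ × ℚ, G q =ᵐ[μ] (Set.Ioo (q.1 : ℝ) q.2).indicator fun _ => (1 : ℂ) :=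
    fun q => indicatorConstLp_coeFn
  have hseq : ∀ q : ℚ × ℚ, ∃ (c : ℕ → ℂ) (n : ℕ → ℕ), ∀ᵐ x ∂μ,
      Tendsto (fun j => c j * (φ x ^ n j * f x)) atTop
        (𝓝 ((Set.Ioo (q.1 : ℝ) q.2).indicator (fun _ => (1 : ℂ)) x)) := by
    intro q
    obtain ⟨c, n, _, _, h3, _⟩ := exists_seq hf (G q)
    refine ⟨c, n, ?_⟩
    have h4 : ∀ᵐ x ∂μ, ∀ j, (c j • (T ^ n j) f : Lp ℂ p μ) x = c j * (φ x ^ n j * f x) :=
      ae_all_iff.2 fun j => hsm (c j) (n j)
    filter_upwards [h3, h4, hG2 q] with x h5 h6 h7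
    rw [h7] at h5
    exact h5.congr h6
  choose c n hcn using hseq
  have hall : ∀ᵐ x ∂μ, ∀ q : ℚ × ℚ, Tendsto (fun j => c q j * (φ x ^ n q j * f x)) atTop
        (𝓝 ((Set.Ioo (q.1 : ℝ) q.2).indicator (fun _ => (1 : ℂ)) x)) := ae_all_iff.2 hcn
  have hin : ∀ᵐ x ∂μ, x ∈ Set.Icc (0 : ℝ) 1 := ae_restrict_mem measurableSet_Icc
  -- two distinct good points
  have hgood := hall.and hin
  have hne : ∃ x ∈ {x : ℝ | (∀ q : ℚ × ℚ, Tendsto (fun j => c q j * (φ x ^ n q j * f x)) atTop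
        (𝓝 ((Set.Ioo (q.1 : ℝ) q.2).indicator (fun _ => (1 : ℂ)) x))) ∧ x ∈ Set.Icc (0 : ℝ) 1},
      ∃ y ∈ {x : ℝ | (∀ q : ℚ × ℚ, Tendsto (fun j => c q j * (φ x ^ n q j * f x)) atTop
        (𝓝 ((Set.Ioo (q.1 : ℝ) q.2).indicator (fun _ => (1 : ℂ)) x))) ∧ x ∈ Set.Icc (0 : ℝ) 1},
      x ≠ y := by
    by_contra hcon
    push Not at hcon
    have hsub : Set.Subsingleton {x : ℝ | (∀ q : ℚ × ℚ,
        Tendsto (fun j => c q j * (φ x ^ n q j * f x)) atTop
        (𝓝 ((Set.Ioo (q.1 : ℝ) q.2).indicator (fun _ => (1 : ℂ)) x))) ∧ x ∈ Set.Icc (0 : ℝ) 1} :=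
      fun x hx y hy => hcon x hx y hy
    have h0 : μ {x : ℝ | (∀ q : ℚ × ℚ, Tendsto (fun j => c q j * (φ x ^ n q j * f x)) atTop
        (𝓝 ((Set.Ioo (q.1 : ℝ) q.2).indicator (fun _ => (1 : ℂ)) x))) ∧ x ∈ Set.Icc (0 : ℝ) 1} = 0 :=
      hsub.countable.measure_zero _
    have h1 : μ Set.univ = 0 := by
      refine le_antisymm ?_ zero_le
      calc μ Set.univ ≤ μ {x : ℝ | (∀ q : ℚ × ℚ, Tendsto (fun j => c q j * (φ x ^ n q j * f x)) atTop
        (𝓝 ((Set.Ioo (q.1 : ℝ) q.2).indicator (fun _ => (1 : ℂ)) x))) ∧ x ∈ Set.Icc (0 : ℝ) 1} +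
          μ {x : ℝ | (∀ q : ℚ × ℚ, Tendsto (fun j => c q j * (φ x ^ n q j * f x)) atTop
        (𝓝 ((Set.Ioo (q.1 : ℝ) q.2).indicator (fun _ => (1 : ℂ)) x))) ∧ x ∈ Set.Icc (0 : ℝ) 1}ᶜ := by
            rw [← Set.union_compl_self {x : ℝ | (∀ q : ℚ × ℚ,
              Tendsto (fun j => c q j * (φ x ^ n q j * f x)) atTop
              (𝓝 ((Set.Ioo (q.1 : ℝ) q.2).indicator (fun _ => (1 : ℂ)) x))) ∧ x ∈ Set.Icc (0 : ℝ) 1}]
            exact measure_union_le _ _
        _ = 0 := by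
            rw [h0, zero_add]
            exact hgood
    rw [measure_univ] at h1
    exact one_ne_zero h1
  -- the comparison
  have key : ∀ x y : ℝ, (∀ q : ℚ × ℚ, Tendsto (fun j => c q j * (φ x ^ n q j * f x)) atTop
        (𝓝 ((Set.Ioo (q.1 : ℝ) q.2).indicator (fun _ => (1 : ℂ)) x))) → x ∈ Set.Icc (0 : ℝ) 1 →
      (∀ q : ℚ × ℚ, Tendsto (fun j => c q j * (φ y ^ n q j * f y)) atTop
        (𝓝 ((Set.Ioo (q.1 : ℝ) q.2).indicator (fun _ => (1 : ℂ)) y))) → y ∈ Set.Icc (0 : ℝ) 1 →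
      x ≠ y → ‖φ x‖ ≤ ‖φ y‖ → False := by
    intro x y hx hx01 hy hy01 hxy hle
    -- `f y ≠ 0`
    have hfy : f y ≠ 0 := by
      intro h
      have h1 := hy (-1, 2)
      simp only [h, mul_zero] at h1
      have h2 : y ∈ Set.Ioo (((-1 : ℚ) : ℝ)) ((2 : ℚ) : ℝ) := by
        push_cast
        exact ⟨by linarith [hy01.1], by linarith [hy01.2]⟩
      rw [Set.indicator_of_mem h2] at h1
      exact zero_ne_one (tendsto_nhds_unique tendsto_const_nhds h1)
    -- an interval containing `x` and not `y`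
    obtain ⟨q, hqx, hqy⟩ : ∃ q : ℚ × ℚ, x ∈ Set.Ioo (q.1 : ℝ) q.2 ∧ y ∉ Set.Ioo (q.1 : ℝ) q.2 := by
      rcases lt_or_gt_of_ne hxy with h | h
      · obtain ⟨b, hb1, hb2⟩ := exists_rat_btwn h
        refine ⟨(-1, b), ⟨by push_cast; linarith [hx01.1], hb1⟩, fun hc => ?_⟩
        have := hc.2
        linarith
      · obtain ⟨a, ha1, ha2⟩ := exists_rat_btwn h
        refine ⟨(a, 2), ⟨ha2, by push_cast; linarith [hx01.2]⟩, fun hc => ?_⟩
        have := hc.1
        linarith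
    have h1 := hx q
    have h2 := hy q
    rw [Set.indicator_of_mem hqx] at h1
    rw [Set.indicator_of_notMem hqy] at h2
    have h3 : Tendsto (fun j => ‖c q j * (φ x ^ n q j * f x)‖ * ‖f y‖) atTop (𝓝 (‖(1 : ℂ)‖ * ‖f y‖)) :=
      h1.norm.mul_const _
    have h4 : Tendsto (fun j => ‖c q j * (φ y ^ n q j * f y)‖ * ‖f x‖) atTop (𝓝 (‖(0 : ℂ)‖ * ‖f x‖)) :=
      h2.norm.mul_const _
    have h5 := le_of_tendsto_of_tendsto' h3 h4 (fun j => by
      simp only [norm_mul, norm_pow]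
      have h6 : ‖φ x‖ ^ n q j ≤ ‖φ y‖ ^ n q j := by gcongr
      calc ‖c q j‖ * (‖φ x‖ ^ n q j * ‖f x‖) * ‖f y‖
          = ‖φ x‖ ^ n q j * (‖c q j‖ * ‖f x‖ * ‖f y‖) := by ring
        _ ≤ ‖φ y‖ ^ n q j * (‖c q j‖ * ‖f x‖ * ‖f y‖) := by gcongr
        _ = _ := by ring)
    rw [norm_one, one_mul, norm_zero, zero_mul] at h5
    exact hfy (norm_le_zero_iff.1 h5)
  obtain ⟨x, ⟨hx1, hx2⟩, y, ⟨hy1, hy2⟩, hxy⟩ := hne
  rcases le_total ‖φ x‖ ‖φ y‖ with h | h
  · exact key x y hx1 hx2 hy1 hy2 hxy h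
  · exact key y x hy1 hy2 hx1 hx2 hxy.symm h

/-- for a fixed point free translation, density forces the weight to vanish -/
theorem weight_zero {α : ℝ} (hα : Int.fract α ≠ 0) (φ : Lp ℂ ∞ μ) (f : Lp ℂ p μ)
    (hf : Dense {y : Lp ℂ p μ | ∃ (c : ℂ) (n : ℕ), y = c • ((W p α φ) ^ n) f}) :
    ∀ᵐ x ∂μ, φ x = 0 := by
  set T := W p α φ with hT
  have hTa : ∀ g : Lp ℂ p μ, ∀ᵐ x ∂μ, T g x = φ x * g (R α x) := fun g => W_apply α φ g
  have hqmp := (preserving α).quasiMeasurePreserving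
  have hsucc : ∀ (n : ℕ), (T ^ (n + 1)) f = T ((T ^ n) f) := fun n => by rw [pow_succ']; rfl
  -- the constant `c`
  obtain ⟨M, hM0, hM⟩ : ∃ M : ℝ, 0 ≤ M ∧ ∀ᵐ x ∂μ, ‖φ x‖ ≤ M := by
    refine ⟨‖φ‖, norm_nonneg _, ?_⟩
    have h1 : ∀ᵐ x ∂μ, ‖φ x‖ₑ ≤ eLpNormEssSup φ μ := ae_le_eLpNormEssSup
    filter_upwards [h1] with x hx
    have h2 : eLpNormEssSup φ μ = ‖φ‖ₑ := by
      rw [Lp.enorm_def, eLpNorm_exponent_top]
    rw [h2] at hx
    exact enorm_le_iff_norm_le.1 hx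
  set c : ℝ := M + 1 with hc
  set E : Set ℝ := {x | c * ‖f x‖ ≤ ‖T f x‖} with hE
  have hEm : MeasurableSet E := by
    apply measurableSet_le
    · exact (measurable_const.mul (Lp.stronglyMeasurable f).measurable.norm)
    · exact (Lp.stronglyMeasurable (T f)).measurable.norm
  -- propagation of the inequality
  have hP : ∀ n : ℕ, ∀ᵐ x ∂μ, (R α)^[n] x ∈ E →
      c * ‖(T ^ n) f x‖ ≤ ‖(T ^ (n + 1)) f x‖ := by
    intro n
    induction n with
    | zero =>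
      refine Eventually.of_forall fun x hx => ?_
      have hx' : c * ‖f x‖ ≤ ‖T f x‖ := hx
      simpa using hx'
    | succ n ih =>
      have h1 := hqmp.ae ih
      filter_upwards [h1, hTa ((T ^ (n + 1)) f), hTa ((T ^ n) f)] with x hx1 hx2 hx3 hx4
      rw [Function.iterate_succ_apply] at hx4
      have h5 := hx1 hx4
      rw [hsucc (n + 1), hx2, hsucc n, hx3, norm_mul, norm_mul, ← hsucc n]
      calc c * (‖φ x‖ * ‖(T ^ n) f (R α x)‖) = ‖φ x‖ * (c * ‖(T ^ n) f (R α x)‖) := by ring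
        _ ≤ ‖φ x‖ * ‖(T ^ (n + 1)) f (R α x)‖ := by gcongr
  -- `E` is a null set
  have hE0 : μ E = 0 := by
    set one : Lp ℂ p μ := Lp.const p μ 1 with hone
    have hone1 : one =ᵐ[μ] Function.const ℝ (1 : ℂ) := Lp.coeFn_const p μ 1
    obtain ⟨a, n, h1, h2, -, -⟩ := exists_seq hf one
    have hδ : 0 < 1 / (c + 2) := by positivity
    set δ : ℝ≥0∞ := ENNReal.ofReal (1 / (c + 2)) with hδ'
    have hδ0 : 0 < δ := ENNReal.ofReal_pos.2 hδ
    have t1 := tendstoInMeasure_of_tendsto_Lp h1 δ hδ0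
    have t2 := tendstoInMeasure_of_tendsto_Lp h2 δ hδ0
    have t3 := t1.add t2
    rw [add_zero] at t3
    have hb : ∀ j, μ E ≤ μ {x | δ ≤ edist ((a j • (T ^ n j) f : Lp ℂ p μ) x) (one x)} +
        μ {x | δ ≤ edist ((a j • (T ^ (n j + 1)) f : Lp ℂ p μ) x) (T one x)} := by
      intro j
      rw [← ((preserving α).iterate (n j)).measure_preimage hEm.nullMeasurableSet]
      refine (measure_mono_ae ?_).trans (measure_union_le _ _)
      have hone2 : ∀ᵐ x ∂μ, one (R α x) = 1 := hqmp.ae hone1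
      filter_upwards [hP (n j), hTa one, hM, hone1, hone2, Lp.coeFn_smul (a j) ((T ^ n j) f),
        Lp.coeFn_smul (a j) ((T ^ (n j + 1)) f)] with x g1 g2 g3 g4 g5 g6 g7 hx
      have g8 := g1 hx
      by_contra hcon
      have hcon2 : ¬ (δ ≤ edist ((a j • (T ^ n j) f : Lp ℂ p μ) x) (one x) ∨
          δ ≤ edist ((a j • (T ^ (n j + 1)) f : Lp ℂ p μ) x) (T one x)) := hcon
      obtain ⟨k1, k2⟩ := not_or.1 hcon2
      rw [not_le, edist_dist, ENNReal.ofReal_lt_ofReal_iff hδ, dist_eq_norm,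
        g6, g4, Pi.smul_apply, Function.const_apply, smul_eq_mul] at k1
      rw [not_le, edist_dist, ENNReal.ofReal_lt_ofReal_iff hδ, dist_eq_norm,
        g7, g2, g5, Pi.smul_apply, smul_eq_mul, mul_one] at k2
      have l1 : 1 - 1 / (c + 2) < ‖a j * (T ^ n j) f x‖ := by
        have := norm_sub_norm_le (1 : ℂ) (a j * (T ^ n j) f x)
        rw [norm_one, norm_sub_rev] at this
        linarith
      have l2 : ‖a j * (T ^ (n j + 1)) f x‖ < M + 1 / (c + 2) := by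
        have := norm_sub_norm_le (a j * (T ^ (n j + 1)) f x) (φ x)
        linarith
      have l3 : c * ‖a j * (T ^ n j) f x‖ ≤ ‖a j * (T ^ (n j + 1)) f x‖ := by
        rw [norm_mul, norm_mul]
        calc c * (‖a j‖ * ‖(T ^ n j) f x‖) = ‖a j‖ * (c * ‖(T ^ n j) f x‖) := by ring
          _ ≤ _ := by gcongr
      have hcpos : 0 < c := by positivity
      have l4 : c * (1 - 1 / (c + 2)) < M + 1 / (c + 2) := by
        have := mul_lt_mul_of_pos_left l1 hcpos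
        linarith
      have l5 : c * (1 - 1 / (c + 2)) = c - c / (c + 2) := by ring
      have l6 : c / (c + 2) + 1 / (c + 2) < 1 := by
        rw [← add_div, div_lt_one (by positivity)]
        linarith
      rw [l5, hc] at l4
      rw [hc] at l6
      linarith
    refine le_antisymm ?_ zero_le
    exact ge_of_tendsto' t3 hb
  -- the reverse inequality for the orbit
  have hQ : ∀ n : ℕ, ∀ᵐ x ∂μ, ‖(T ^ (n + 1)) f x‖ ≤ c * ‖(T ^ n) f x‖ := by
    intro n
    induction n with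
    | zero =>
      have : ∀ᵐ x ∂μ, x ∉ E := measure_eq_zero_iff_ae_notMem.1 hE0
      filter_upwards [this] with x hx
      rw [hE, Set.mem_ofPred_eq, not_le] at hx
      simpa using hx.le
    | succ n ih =>
      have h1 := hqmp.ae ih
      filter_upwards [h1, hTa ((T ^ (n + 1)) f), hTa ((T ^ n) f)] with x hx1 hx2 hx3
      rw [hsucc (n + 1), hx2, hsucc n, hx3, norm_mul, norm_mul, ← hsucc n]
      calc ‖φ x‖ * ‖(T ^ (n + 1)) f (R α x)‖ ≤ ‖φ x‖ * (c * ‖(T ^ n) f (R α x)‖) := by gcongr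
        _ = c * (‖φ x‖ * ‖(T ^ n) f (R α x)‖) := by ring
  -- the inequality for all functions
  have hall : ∀ g : Lp ℂ p μ, ∀ᵐ x ∂μ, ‖T g x‖ ≤ c * ‖g x‖ := by
    intro g
    obtain ⟨a, n, -, -, h3, h4⟩ := exists_seq hf g
    have h5 : ∀ᵐ x ∂μ, ∀ j, ‖(a j • (T ^ (n j + 1)) f : Lp ℂ p μ) x‖ ≤
        c * ‖(a j • (T ^ n j) f : Lp ℂ p μ) x‖ := by
      rw [ae_all_iff]
      intro j
      filter_upwards [hQ (n j), Lp.coeFn_smul (a j) ((T ^ n j) f),
        Lp.coeFn_smul (a j) ((T ^ (n j + 1)) f)] with x k1 k2 k3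
      rw [k2, k3, Pi.smul_apply, Pi.smul_apply, norm_smul, norm_smul]
      calc ‖a j‖ * ‖(T ^ (n j + 1)) f x‖ ≤ ‖a j‖ * (c * ‖(T ^ n j) f x‖) := by gcongr
        _ = _ := by ring
    filter_upwards [h3, h4, h5] with x k3 k4 k5
    exact le_of_tendsto_of_tendsto' k4.norm (k3.norm.const_mul c) k5
  -- test with intervals
  have htest : ∀ᵐ x ∂μ, ∀ q : ℚ × ℚ,
      ‖φ x * (Set.Ioo (q.1 : ℝ) q.2).indicator (fun _ => (1 : ℂ)) (R α x)‖ ≤
        c * ‖(Set.Ioo (q.1 : ℝ) q.2).indicator (fun _ => (1 : ℂ)) x‖ := by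
    rw [ae_all_iff]
    intro q
    set g : Lp ℂ p μ := indicatorConstLp p (measurableSet_Ioo (a := (q.1 : ℝ)) (b := (q.2 : ℝ)))
      (measure_ne_top μ _) 1 with hg
    have hg2 : ∀ᵐ x ∂μ, g x = (Set.Ioo (q.1 : ℝ) q.2).indicator (fun _ => (1 : ℂ)) x :=
      indicatorConstLp_coeFn
    filter_upwards [hall g, hTa g, hg2, hqmp.ae hg2] with x k1 k2 k3 k4
    rw [k2, k3, k4] at k1
    exact k1
  have hin : ∀ᵐ x ∂μ, x ∈ Set.Ico (0 : ℝ) 1 := by
    rw [μ_eq]
    exact ae_restrict_mem measurableSet_Ico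
  filter_upwards [htest, hin] with x hx hx01
  have hne : R α x ≠ x := by
    intro h
    apply hα
    unfold R at h
    rw [Int.fract_eq_iff] at h
    obtain ⟨_, _, z, hz⟩ := h
    have : α = z := by linarith
    rw [this, Int.fract_intCast]
  obtain ⟨q, hq1, hq2⟩ : ∃ q : ℚ × ℚ, R α x ∈ Set.Ioo (q.1 : ℝ) q.2 ∧ x ∉ Set.Ioo (q.1 : ℝ) q.2 := by
    have hR0 : 0 ≤ R α x := Int.fract_nonneg _
    have hR1 : R α x < 1 := Int.fract_lt_one _
    rcases lt_or_gt_of_ne hne with h | h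
    · obtain ⟨b, hb1, hb2⟩ := exists_rat_btwn h
      refine ⟨(-1, b), ⟨by push_cast; linarith, hb1⟩, fun hc => ?_⟩
      have := hc.2
      linarith
    · obtain ⟨a, ha1, ha2⟩ := exists_rat_btwn h
      refine ⟨(a, 2), ⟨ha2, by push_cast; linarith⟩, fun hc => ?_⟩
      have := hc.1
      linarith
  have h3 := hx q
  rw [Set.indicator_of_mem hq1, Set.indicator_of_notMem hq2, mul_one, norm_zero, mul_zero] at h3
  exact norm_le_zero_iff.1 h3

theorem not_supercyclic (α : ℝ) (φ : Lp ℂ ∞ μ) : ¬ Supercyclic (W p α φ) := by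
  rintro ⟨f, hf⟩
  by_cases hα : Int.fract α = 0
  · refine mult_not_supercyclic (φ := φ) (fun g => ?_) f hf
    have hin : ∀ᵐ x ∂μ, x ∈ Set.Ico (0 : ℝ) 1 := by
      rw [μ_eq]
      exact ae_restrict_mem measurableSet_Ico
    filter_upwards [W_apply α φ g, hin] with x h1 h2
    rw [h1]
    have : Int.fract (x + α) = x := by
      have e := congrFun (R_fract α) x
      unfold R at e
      rw [e, hα, add_zero]
      exact Int.fract_eq_self.2 h2
    rw [this]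
  · have h0 := weight_zero hα φ f hf
    refine mult_not_supercyclic (φ := φ) (fun g => ?_) f hf
    filter_upwards [W_apply α φ g, h0] with x h1 h2
    rw [h1, h2, zero_mul, zero_mul]

/-- `T` is the weighted translation operator `f ↦ φ(x) f({x + α})` on `L^p([0,1])` -/
def IsWeightedTranslation (p : ℝ≥0∞) [Fact (1 ≤ p)] (α : ℝ) (φ : Lp ℂ ∞ μ)
    (T : Lp ℂ p μ →L[ℂ] Lp ℂ p μ) : Prop :=
  ∀ f : Lp ℂ p μ, T f =ᵐ[μ] fun x => φ x * f (Int.fract (x + α))

/-- The weighted translation operator on `L^p([0,1])`, `1 ≤ p ≤ ∞`, exists, is unique, and is not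
supercyclic; in particular it is not hypercyclic. -/
theorem result (p : ℝ≥0∞) [Fact (1 ≤ p)] (α : ℝ) (φ : Lp ℂ ∞ μ) :
    (∃! T : Lp ℂ p μ →L[ℂ] Lp ℂ p μ, IsWeightedTranslation p α φ T) ∧
    ∀ T : Lp ℂ p μ →L[ℂ] Lp ℂ p μ, IsWeightedTranslation p α φ T →
      ¬ Supercyclic T ∧ ¬ Hypercyclic T := by
  have huniq : ∀ T : Lp ℂ p μ →L[ℂ] Lp ℂ p μ, IsWeightedTranslation p α φ T → T = W p α φ := by
    intro T hT
    ext1 f
    exact Lp.ext ((hT f).trans (W_apply α φ f).symm)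
  refine ⟨⟨W p α φ, W_apply α φ, huniq⟩, ?_⟩
  intro T hT
  rw [huniq T hT]
  refine ⟨not_supercyclic α φ, ?_⟩
  rintro ⟨f, hf⟩
  refine not_supercyclic (p := p) α φ ⟨f, hf.mono ?_⟩
  rintro _ ⟨n, rfl⟩
  exact ⟨1, n, (one_smul _ _).symm⟩

end Pool.Agent.Results.MP_e40715_an.NeverSupercyclic
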